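import Pool.Agent.U115.GD.StmK
import Pool.Agent.U643.GD.CNT
import Pool.Agent.Y948.CQ.C2

/-!
# Project GDK, package NSK (helper388)

The translation of the statement for sets of primes to the one for numbers (`t_NSK`), the sum of
the limit probabilities (`t_SUMK`), the kernel in terms of the rank of the matrix (`t_RKK`).
-/

set_option autoImplicit false
set_option linter.unusedVariables false

open scoped Classical

namespace Pool.Agent.U388.GD

open Finset Filter Topology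
open Pool.Agent.U115.GD
open Pool.Agent.Y703.CQ (nr c2 S_C2)

theorem t_NSK : S_NSK := by
  intro hdq G f d hOk
  refine (hdq G f d hOk).congr fun X => ?_
  have e1 := Pool.Agent.U643.GD.card_eq G X (GdK G f d)
  have e2 := Pool.Agent.U643.GD.card_eq G X (fun _ => True)
  rw [Finset.filter_true] at e2
  simp only [and_true] at e2
  rw [← e1, ← e2]

/-! ### the sum of the probabilities -/

/-- the coefficients `1 / ∏_{i=1}^k (2^i - 1)` -/
noncomputable def ak (k : ℕ) : ℝ := 1 / ∏ i ∈ range k, ((2 : ℝ) ^ (i + 1) - 1)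

theorem fac_pos (i : ℕ) : (1 : ℝ) ≤ (2 : ℝ) ^ (i + 1) - 1 := by
  have : (1 : ℝ) ≤ 2 ^ i := one_le_pow₀ (by norm_num)
  rw [pow_succ]
  linarith

theorem prod_fac_pos (k : ℕ) : 0 < ∏ i ∈ range k, ((2 : ℝ) ^ (i + 1) - 1) :=
  prod_pos fun i _ => lt_of_lt_of_le one_pos (fac_pos i)

theorem ak_pos (k : ℕ) : 0 < ak k := by
  unfold ak
  exact div_pos one_pos (prod_fac_pos k)

theorem ak_zero : ak 0 = 1 := by
  unfold ak
  simp

theorem ak_succ (k : ℕ) : ak (k + 1) * ((2 : ℝ) ^ (k + 1) - 1) = ak k := by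
  unfold ak
  rw [prod_range_succ]
  have h1 := (prod_fac_pos k).ne'
  have h2 : (2 : ℝ) ^ (k + 1) - 1 ≠ 0 := by
    have := fac_pos k
    linarith
  field_simp

/-- `a_k ≤ 2 (1/2)^k` -/
theorem ak_le (k : ℕ) : ak k ≤ 2 * (1 / 2 : ℝ) ^ k := by
  induction k with
  | zero => rw [ak_zero]; norm_num
  | succ k ih =>
    rcases Nat.eq_zero_or_pos k with rfl | hk
    · have := ak_succ 0
      rw [ak_zero] at this
      norm_num at this ⊢
      linarith
    · have h1 := ak_succ k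
      have h2 : (2 : ℝ) ≤ (2 : ℝ) ^ (k + 1) - 1 := by
        have : (2 : ℝ) ^ 1 ≤ 2 ^ k := pow_le_pow_right₀ (by norm_num) hk
        rw [pow_succ]
        linarith
      have h3 := ak_pos (k + 1)
      have h4 : ak (k + 1) * 2 ≤ ak k := by
        rw [← h1]
        exact mul_le_mul_of_nonneg_left h2 h3.le
      rw [pow_succ]
      linarith

theorem summable_ak : Summable ak := by
  refine Summable.of_nonneg_of_le (fun k => (ak_pos k).le) ak_le ?_
  exact (summable_geometric_of_lt_one (by norm_num) (by norm_num)).mul_left 2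

theorem summable_x {x : ℝ} (h0 : 0 ≤ x) (h1 : x ≤ 1) : Summable fun k => ak k * x ^ k := by
  refine Summable.of_nonneg_of_le (fun k => mul_nonneg (ak_pos k).le (pow_nonneg h0 k))
    (fun k => ?_) summable_ak
  exact mul_le_of_le_one_right (ak_pos k).le (pow_le_one₀ h0 h1)

/-- the function `∑ a_k x^k` -/
noncomputable def FF (x : ℝ) : ℝ := ∑' k, ak k * x ^ k

theorem FF_step {x : ℝ} (h0 : 0 ≤ x) (h1 : 2 * x ≤ 1) : FF (2 * x) = (1 + x) * FF x := by
  have hs1 := summable_x (x := 2 * x) (by linarith) h1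
  have hs2 := summable_x h0 (by linarith : x ≤ 1)
  have e1 : FF (2 * x) - FF x = ∑' k, ak k * ((2 : ℝ) ^ k - 1) * x ^ k := by
    unfold FF
    rw [← hs1.tsum_sub hs2]
    congr 1
    funext k
    rw [mul_pow]
    ring
  have hs3 : Summable fun k => ak k * ((2 : ℝ) ^ k - 1) * x ^ k := by
    refine (hs1.sub hs2).congr fun k => ?_
    rw [mul_pow]
    ring
  have e2 : ∑' k, ak k * ((2 : ℝ) ^ k - 1) * x ^ k = x * FF x := by
    rw [hs3.tsum_eq_zero_add]
    unfold FF
    rw [← tsum_mul_left]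
    simp only [pow_zero, sub_self, mul_zero, zero_mul, zero_add]
    congr 1
    funext k
    rw [ak_succ, pow_succ]
    ring
  linarith

theorem FF_prod (n : ℕ) :
    FF 1 = (∏ i ∈ range n, (1 + (1 / 2 : ℝ) ^ (i + 1))) * FF ((1 / 2 : ℝ) ^ n) := by
  induction n with
  | zero => simp
  | succ n ih =>
    have h0 : (0 : ℝ) ≤ (1 / 2 : ℝ) ^ (n + 1) := by positivity
    have e : 2 * (1 / 2 : ℝ) ^ (n + 1) = (1 / 2 : ℝ) ^ n := by
      rw [pow_succ]; ring
    have h1 : 2 * (1 / 2 : ℝ) ^ (n + 1) ≤ 1 := by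
      rw [e]
      exact pow_le_one₀ (by norm_num) (by norm_num)
    have h2 := FF_step h0 h1
    rw [e] at h2
    rw [ih, h2, prod_range_succ]
    ring

/-- `F` is continuous at `0` -/
theorem FF_near {x : ℝ} (h0 : 0 ≤ x) (h1 : x ≤ 1) : |FF x - 1| ≤ x * FF 1 := by
  have hs := summable_x h0 h1
  have hs1 := summable_x zero_le_one (le_refl (1 : ℝ))
  have e1 : FF x = 1 + ∑' k, ak (k + 1) * x ^ (k + 1) := by
    unfold FF
    rw [hs.tsum_eq_zero_add]
    simp [ak_zero]
  have hs2 : Summable fun k => ak (k + 1) * x ^ (k + 1) := (summable_nat_add_iff 1).mpr hs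
  have hs3 : Summable fun k => x * (ak (k + 1) * 1 ^ (k + 1)) :=
    ((summable_nat_add_iff 1).mpr hs1).mul_left x
  have h3 : 0 ≤ ∑' k, ak (k + 1) * x ^ (k + 1) :=
    tsum_nonneg fun k => mul_nonneg (ak_pos _).le (pow_nonneg h0 _)
  have h4 : ∑' k, ak (k + 1) * x ^ (k + 1) ≤ ∑' k, x * (ak (k + 1) * 1 ^ (k + 1)) := by
    refine hs2.tsum_le_tsum (fun k => ?_) hs3
    rw [one_pow, mul_one, pow_succ]
    have h5 : x ^ k * x ≤ x := mul_le_of_le_one_left h0 (pow_le_one₀ h0 h1)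
    calc ak (k + 1) * (x ^ k * x) ≤ ak (k + 1) * x :=
          mul_le_mul_of_nonneg_left h5 (ak_pos _).le
      _ = _ := by ring
  have h5 : ∑' k, x * (ak (k + 1) * 1 ^ (k + 1)) ≤ x * FF 1 := by
    rw [tsum_mul_left]
    refine mul_le_mul_of_nonneg_left ?_ h0
    unfold FF
    rw [hs1.tsum_eq_zero_add]
    have : 0 ≤ ak 0 * (1 : ℝ) ^ 0 := by rw [ak_zero]; norm_num
    linarith
  rw [e1, add_sub_cancel_left, abs_of_nonneg h3]
  linarith

theorem tendsto_FF : Tendsto (fun n : ℕ => FF ((1 / 2 : ℝ) ^ n)) atTop (𝓝 1) := by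
  rw [tendsto_iff_norm_sub_tendsto_zero]
  have h1 : Tendsto (fun n : ℕ => (1 / 2 : ℝ) ^ n * FF 1) atTop (𝓝 0) := by
    have := (tendsto_pow_atTop_nhds_zero_of_lt_one (r := (1 / 2 : ℝ)) (by norm_num)
      (by norm_num)).mul_const (FF 1)
    rwa [zero_mul] at this
  refine squeeze_zero (fun _ => norm_nonneg _) (fun n => ?_) h1
  rw [Real.norm_eq_abs]
  exact FF_near (by positivity) (pow_le_one₀ (by norm_num) (by norm_num))

/-- the finite form of Euler's identity -/
theorem euler (n : ℕ) : (∏ i ∈ range n, (1 + (1 / 2 : ℝ) ^ (i + 1))) *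
    (∏ i ∈ range n, (1 - (1 / 2 : ℝ) ^ (i + 1))) *
    ∏ i ∈ range n, (1 - (1 / 2 : ℝ) ^ (2 * i + 1)) = ∏ i ∈ range (2 * n), (1 - (1 / 2 : ℝ) ^ (i + 1))
    := by
  induction n with
  | zero => simp
  | succ n ih =>
    rw [show 2 * (n + 1) = 2 * n + 1 + 1 by ring,
      prod_range_succ (fun i => (1 - (1 / 2 : ℝ) ^ (i + 1))) (2 * n + 1),
      prod_range_succ (fun i => (1 - (1 / 2 : ℝ) ^ (i + 1))) (2 * n),
      ← ih, prod_range_succ _ n, prod_range_succ _ n, prod_range_succ _ n]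
    have e : (1 / 2 : ℝ) ^ (2 * n + 1 + 1) = (1 / 2 : ℝ) ^ (n + 1) * (1 / 2 : ℝ) ^ (n + 1) := by
      rw [← pow_add]; congr 1; ring
    rw [e]
    ring

/-- the infinite product `∏ (1 - 2^{-i})` converges to a positive number -/
theorem tendsto_p : ∃ c : ℝ, 0 < c ∧
    Tendsto (fun n : ℕ => ∏ i ∈ range n, (1 - (1 / 2 : ℝ) ^ (i + 1))) atTop (𝓝 c) := by
  set p : ℕ → ℝ := fun n => ∏ i ∈ range n, (1 - (1 / 2 : ℝ) ^ (i + 1)) with hp
  have hf0 : ∀ i : ℕ, (1 : ℝ) / 2 ≤ 1 - (1 / 2 : ℝ) ^ (i + 1) := by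
    intro i
    have : (1 / 2 : ℝ) ^ i ≤ 1 := pow_le_one₀ (by norm_num) (by norm_num)
    rw [pow_succ]
    linarith
  have hf1 : ∀ i : ℕ, 1 - (1 / 2 : ℝ) ^ (i + 1) ≤ 1 := by
    intro i
    have : (0 : ℝ) ≤ (1 / 2 : ℝ) ^ (i + 1) := by positivity
    linarith
  have hpos : ∀ n, 0 ≤ p n := fun n => prod_nonneg fun i _ => by linarith [hf0 i]
  have hanti : Antitone p := by
    refine antitone_nat_of_succ_le fun n => ?_
    simp only [hp, prod_range_succ]
    exact mul_le_of_le_one_right (hpos n) (hf1 n)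
  -- a lower bound
  have hlow : ∀ n, 1 / 4 + (1 / 2 : ℝ) ^ (n + 2) ≤ p (n + 1) := by
    intro n
    induction n with
    | zero => simp only [hp]; norm_num
    | succ n ih =>
      have e : p (n + 1 + 1) = p (n + 1) * (1 - (1 / 2 : ℝ) ^ (n + 1 + 1)) := by
        simp only [hp, prod_range_succ]
      rw [e]
      have h1 := hf0 (n + 1)
      have h2 : (1 / 4 + (1 / 2 : ℝ) ^ (n + 2)) * (1 - (1 / 2 : ℝ) ^ (n + 1 + 1)) ≤
          p (n + 1) * (1 - (1 / 2 : ℝ) ^ (n + 1 + 1)) :=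
        mul_le_mul_of_nonneg_right ih (by linarith)
      refine le_trans ?_ h2
      have e2 : (1 / 2 : ℝ) ^ (n + 1 + 2) = 1 / 2 * (1 / 2 : ℝ) ^ (n + 1 + 1) := by
        rw [show n + 1 + 2 = (n + 1 + 1) + 1 by ring, pow_succ _ (n + 1 + 1)]; ring
      rw [e2, show n + 2 = n + 1 + 1 by ring]
      set y := (1 / 2 : ℝ) ^ (n + 1 + 1) with hy
      have hy0 : 0 ≤ y := by positivity
      have hy1 : y ≤ 1 / 4 := by
        have : (1 / 2 : ℝ) ^ n ≤ 1 := pow_le_one₀ (by norm_num) (by norm_num)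
        rw [hy, pow_succ, pow_succ]
        linarith
      nlinarith
  have hbdd : BddBelow (Set.range p) := ⟨0, by rintro _ ⟨n, rfl⟩; exact hpos n⟩
  refine ⟨⨅ n, p n, ?_, tendsto_atTop_ciInf hanti hbdd⟩
  refine lt_of_lt_of_le (by norm_num : (0 : ℝ) < 1 / 4) (le_ciInf fun n => ?_)
  refine le_trans ?_ (hanti (Nat.le_succ n))
  refine le_trans ?_ (hlow n)
  have : (0 : ℝ) ≤ (1 / 2 : ℝ) ^ (n + 2) := by positivity
  linarith

theorem tsum_ak : c2 * FF 1 = 1 := by
  obtain ⟨c, hc, ht⟩ := tendsto_p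
  have hC2 := Pool.Agent.Y948.CQ.t_C2
  have t2 : Tendsto (fun n : ℕ => ∏ i ∈ range n, (1 - (1 / 2 : ℝ) ^ (2 * i + 1))) atTop (𝓝 c2) := by
    rw [tendsto_iff_norm_sub_tendsto_zero]
    refine squeeze_zero (fun _ => norm_nonneg _) (fun n => hC2.1 n) ?_
    exact tendsto_pow_atTop_nhds_zero_of_lt_one (by norm_num) (by norm_num)
  have t3 : Tendsto (fun n : ℕ => ∏ i ∈ range (2 * n), (1 - (1 / 2 : ℝ) ^ (i + 1))) atTop (𝓝 c) :=
    ht.comp (tendsto_id.const_mul_atTop' (by norm_num : 0 < 2))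
  have t4 := (ht.mul t2).const_mul (FF 1)
  have t5 : Tendsto (fun n : ℕ => FF ((1 / 2 : ℝ) ^ n) *
      ∏ i ∈ range (2 * n), (1 - (1 / 2 : ℝ) ^ (i + 1))) atTop (𝓝 (1 * c)) := tendsto_FF.mul t3
  have e : ∀ n : ℕ, FF 1 * ((∏ i ∈ range n, (1 - (1 / 2 : ℝ) ^ (i + 1))) *
      ∏ i ∈ range n, (1 - (1 / 2 : ℝ) ^ (2 * i + 1))) = FF ((1 / 2 : ℝ) ^ n) *
      ∏ i ∈ range (2 * n), (1 - (1 / 2 : ℝ) ^ (i + 1)) := by
    intro n
    rw [FF_prod n, ← euler n]
    ring
  have h := tendsto_nhds_unique (t4.congr e) t5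
  have h2 : c * (c2 * FF 1) = c * 1 := by linarith
  exact mul_left_cancel₀ hc.ne' h2

theorem t_SUMK : S_SUMK := by
  have h1 : HasSum (fun k => c2 * ak k) (c2 * FF 1) := by
    have h2 : FF 1 = ∑' k, ak k := by
      unfold FF
      simp
    rw [h2]
    exact summable_ak.hasSum.mul_left c2
  rw [tsum_ak] at h1
  have h3 : ck = fun k => c2 * ak k := by
    funext k
    unfold ck ak
    ring
  show HasSum ck 1
  rw [h3]
  exact h1

/-! ### the kernel in terms of the rank -/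

/-- the matrix -/
noncomputable def MM (G : Cfg) (f : ℕ → ZMod 2) (S : Finset ℕ) :
    Matrix (S.filter fun p => Hc G p) (S.filter fun p => Hc G p) (ZMod 2) :=
  fun i j => if (i : ℕ) = j then f i + ∑ q ∈ S.filter (fun p => ¬ Hc G p), nr i q +
      ∑ p ∈ (S.filter fun p => Hc G p).erase i, nr i p else nr i j

theorem two_eq (z : ZMod 2) : z + z = 0 := by
  revert z
  decide

theorem sol_eq (G : Cfg) (f : ℕ → ZMod 2) (S : Finset ℕ) (x : ℕ → ZMod 2) (i : ℕ)
    (hi : i ∈ S.filter fun p => Hc G p) :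
    ∑ q ∈ S, nr i q * (cu G x q + x i) + f i * x i =
      (MM G f S).mulVec (fun j => x j) ⟨i, hi⟩ := by
  have h1 : ∑ q ∈ S, nr i q * (cu G x q + x i) =
      ∑ q ∈ S.filter (fun p => Hc G p), nr i q * (cu G x q + x i) +
        ∑ q ∈ S.filter (fun p => ¬ Hc G p), nr i q * (cu G x q + x i) :=
    (Finset.sum_filter_add_sum_filter_not S (fun q => Hc G q) _).symm
  have h2 : ∑ q ∈ S.filter (fun p => ¬ Hc G p), nr i q * (cu G x q + x i) =
      (∑ q ∈ S.filter (fun p => ¬ Hc G p), nr i q) * x i := by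
    rw [Finset.sum_mul]
    refine Finset.sum_congr rfl fun q hq => ?_
    have h3 : cu G x q = 0 := if_neg (Finset.mem_filter.1 hq).2
    rw [h3, zero_add]
  have h3 : ∑ q ∈ S.filter (fun p => Hc G p), nr i q * (cu G x q + x i) =
      ∑ q ∈ (S.filter fun p => Hc G p).erase i, nr i q * x q +
        (∑ q ∈ (S.filter fun p => Hc G p).erase i, nr i q) * x i := by
    have h4 : ∀ q ∈ S.filter (fun p => Hc G p), nr i q * (cu G x q + x i) =
        nr i q * (x q + x i) := by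
      intro q hq
      have h3 : cu G x q = x q := if_pos (Finset.mem_filter.1 hq).2
      rw [h3]
    rw [Finset.sum_congr rfl h4, ← Finset.add_sum_erase _ _ hi, two_eq, mul_zero, zero_add,
      Finset.sum_mul, ← Finset.sum_add_distrib]
    refine Finset.sum_congr rfl fun q _ => by ring
  have h5 : (MM G f S).mulVec (fun j => x j) ⟨i, hi⟩ =
      (f i + ∑ q ∈ S.filter (fun p => ¬ Hc G p), nr i q +
        ∑ q ∈ (S.filter fun p => Hc G p).erase i, nr i q) * x i +
        ∑ q ∈ (S.filter fun p => Hc G p).erase i, nr i q * x q := by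
    unfold Matrix.mulVec dotProduct
    have h6 : ∀ j : (S.filter fun p => Hc G p), MM G f S ⟨i, hi⟩ j * x j =
        (fun q : ℕ => (if i = q then (f i + ∑ q ∈ S.filter (fun p => ¬ Hc G p), nr i q +
          ∑ q ∈ (S.filter fun p => Hc G p).erase i, nr i q) else nr i q) * x q) j :=
      fun j => rfl
    rw [Finset.sum_congr rfl fun j _ => h6 j, Finset.sum_coe_sort (S.filter fun p => Hc G p)
        (fun q : ℕ => (if i = q then (f i + ∑ q ∈ S.filter (fun p => ¬ Hc G p), nr i q +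
          ∑ q ∈ (S.filter fun p => Hc G p).erase i, nr i q) else nr i q) * x q),
      ← Finset.add_sum_erase _ _ hi, if_pos rfl]
    congr 1
    refine Finset.sum_congr rfl fun q hq => ?_
    rw [if_neg (Finset.ne_of_mem_erase hq).symm]
  rw [h1, h2, h3, h5]
  ring

theorem card_ker (G : Cfg) (f : ℕ → ZMod 2) (S : Finset ℕ) :
    Nat.card {x : ℕ → ZMod 2 // (∀ p, ¬ (p ∈ S ∧ Hc G p) → x p = 0) ∧ Sol G f S x} =
      2 ^ ((S.filter fun p => Hc G p).card - (MM G f S).rank) := by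
  set P := S.filter fun p => Hc G p with hP
  have hPm : ∀ p, p ∈ P ↔ (p ∈ S ∧ Hc G p) := fun p => Finset.mem_filter
  have e : {x : ℕ → ZMod 2 // (∀ p, ¬ (p ∈ S ∧ Hc G p) → x p = 0) ∧ Sol G f S x} ≃
      LinearMap.ker (MM G f S).mulVecLin := by
    refine Equiv.ofBijective (fun x => ⟨fun i => x.1 i, ?_⟩) ⟨?_, ?_⟩
    · rw [LinearMap.mem_ker, Matrix.mulVecLin_apply]
      funext i
      obtain ⟨i, hi⟩ := i
      refine (sol_eq G f S x.1 i hi).symm.trans ?_
      exact x.2.2 i (Finset.mem_filter.1 hi).1 (Finset.mem_filter.1 hi).2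
    · intro x y hxy
      apply Subtype.ext
      funext p
      by_cases hp : p ∈ S ∧ Hc G p
      · exact congrFun (congrArg Subtype.val hxy) ⟨p, (hPm p).2 hp⟩
      · rw [x.2.1 p hp, y.2.1 p hp]
    · intro y
      set x : ℕ → ZMod 2 := fun p => if h : p ∈ P then y.1 ⟨p, h⟩ else 0 with hx
      have hxy : (fun i : P => x i) = y.1 := by
        funext i
        exact dif_pos i.2
      refine ⟨⟨x, fun p hp => dif_neg (fun h => hp ((hPm p).1 h)), fun p hp h8 => ?_⟩, ?_⟩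
      · have h1 := sol_eq G f S x p ((hPm p).2 ⟨hp, h8⟩)
        rw [h1, hxy]
        have h2 : (MM G f S).mulVec y.1 = 0 := y.2
        rw [h2]
        rfl
      · exact Subtype.ext hxy
  have h1 := LinearMap.finrank_range_add_finrank_ker (MM G f S).mulVecLin
  have h2 : Module.finrank (ZMod 2) (LinearMap.range (MM G f S).mulVecLin) =
      (MM G f S).rank := rfl
  rw [Module.finrank_fintype_fun_eq_card, Fintype.card_coe, h2] at h1
  have h3 := Nat.card_congr e
  rw [Module.natCard_eq_pow_finrank (K := ZMod 2) (V := LinearMap.ker (MM G f S).mulVecLin),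
    Nat.card_zmod] at h3
  rw [h3]
  congr 1
  omega

theorem t_RKK : S_RKK := by
  intro G f k S
  unfold GdK
  rw [card_ker]
  constructor
  · intro h
    exact ⟨MM G f S, fun i j => rfl, Nat.pow_right_injective (le_refl 2) h⟩
  · rintro ⟨M, hM, hk⟩
    have e : M = MM G f S := by
      funext i j
      exact hM i j
    rw [e] at hk
    rw [hk]

end Pool.Agent.U388.GD
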